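import Pool.Agent.Helper79_TOR.Stmts
import Pool.Agent.Helper41_TOR.Ki

/-! Team TOR, T2-STAB block, module ZAB. -/

set_option autoImplicit false

namespace Pool.Agent.TST.H39

open CategoryTheory Rep Pool.Agent.TOR Pool.Agent.TST

/-- ZAB -/
theorem zab : ZAB := by
  intro R _ G Γ _ _ i z hz A v hv hA B f q
  refine ModuleCat.hom_ext (LinearMap.ext fun c => ?_)
  exact kill_comm A z v hv hA i hz f q c

end Pool.Agent.TST.H39
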