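import Pool.Agent.Helper79_TOR.Stmts

/-! Team TOR, T2-STAB block, module ZST: the stabilisation map of the stabilisers vanishes. -/

set_option autoImplicit false

namespace Pool.Agent.TST.H39

open Pointwise Set CategoryTheory Rep Pool.Agent.TOR Pool.Agent.TOR.H58 Pool.Agent.TST

section aux

variable {ι δ κ : Type}

/-- systems are families -/
theorem isFam_of_isSys [Fintype ι] {R : Type} [CommRing R] [IsLocalRing R] {z : ι} {χ : ι → Rˣ}
    {E : κ → Set (FreeGroup ι)} (h : IsSys z χ E) : IsFam E where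
  ai := h.ai
  nest := h.nest
  cls := by
    intro j
    by_contra hc
    push Not at hc
    have h1 := h.act j
    unfold Actv at h1
    have h2 : wt χ (cl (E j)) = 1 := by
      unfold wt
      refine Finset.prod_eq_one fun x _ => ?_
      rw [hc, zpow_zero]
    rw [h2, Units.val_one, sub_self] at h1
    exact not_isUnit_zero h1

/-- the function which is `a` at `d` -/
noncomputable def atd {G : Type} [Group G] (d : δ) (a : G) : δ → G :=
  open Classical in fun e => if e = d then a else 1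

theorem atd_same {G : Type} [Group G] (d : δ) (a : G) : atd d a d = a := by
  unfold atd
  exact if_pos rfl

theorem atd_ne {G : Type} [Group G] (d : δ) (a : G) {e : δ} (h : e ≠ d) : atd d a e = 1 := by
  unfold atd
  exact if_neg h

/-- conjugation of the letter t_d -/
noncomputable def lam (d : δ) (a : FreeGroup ι) : MulAut (FreeGroup (ι ⊕ δ)) :=
  psi 1 (atd d a) (atd d a⁻¹)

theorem psi_one : psi (δ := δ) (1 : MulAut (FreeGroup ι)) (fun _ => 1) (fun _ => 1) = 1 := by
  ext x
  have h : (psi (δ := δ) (1 : MulAut (FreeGroup ι)) (fun _ => 1) (fun _ => 1)).toMonoidHom =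
      MonoidHom.id _ := by
    refine fx fun b => ?_
    rcases b with i | d
    · have h1 : (FreeGroup.of (Sum.inl i : ι ⊕ δ)) = jn δ (FreeGroup.of i) := by rw [mof]
      change psi _ _ _ (FreeGroup.of (Sum.inl i : ι ⊕ δ)) = _
      rw [h1, psi_jn]
      rfl
    · change psi _ _ _ (FreeGroup.of (Sum.inr d : ι ⊕ δ)) = _
      rw [psi_t, map_one, one_mul, mul_one]
      rfl
  exact DFunLike.congr_fun h x

theorem lam_one (d : δ) : lam d (1 : FreeGroup ι) = 1 := by
  have h : atd d (1 : FreeGroup ι) = fun _ => 1 := by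
    funext e
    by_cases he : e = d
    · subst he; exact atd_same _ _
    · exact atd_ne _ _ he
  rw [lam, inv_one, h, psi_one]

theorem lam_mul (d : δ) (a b : FreeGroup ι) : lam d a * lam d b = lam d (b * a) := by
  rw [lam, lam, lam, psi_mul, one_mul]
  congr 1
  · funext e
    change atd d b e * atd d a e = _
    by_cases he : e = d
    · subst he; rw [atd_same, atd_same, atd_same]
    · rw [atd_ne _ _ he, atd_ne _ _ he, atd_ne _ _ he, one_mul]
  · funext e
    change atd d a⁻¹ e * atd d b⁻¹ e = _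
    by_cases he : e = d
    · subst he; rw [atd_same, atd_same, atd_same, mul_inv_rev]
    · rw [atd_ne _ _ he, atd_ne _ _ he, atd_ne _ _ he, one_mul]

theorem lam_inv (d : δ) (a : FreeGroup ι) : (lam d a)⁻¹ = lam d a⁻¹ := by
  rw [inv_eq_iff_mul_eq_one, lam_mul, inv_mul_cancel, lam_one]

theorem lam_comm {d e : δ} (h : d ≠ e) (a b : FreeGroup ι) :
    lam d a * lam e b = lam e b * lam d a := by
  rw [lam, lam, psi_mul, psi_mul]
  congr 1
  · funext x
    change atd e b x * atd d a x = atd d a x * atd e b x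
    by_cases hx : x = d
    · subst hx
      rw [atd_ne _ _ h, one_mul, mul_one]
    · rw [atd_ne _ _ hx, one_mul, mul_one]
  · funext x
    change atd d a⁻¹ x * atd e b⁻¹ x = atd e b⁻¹ x * atd d a⁻¹ x
    by_cases hx : x = d
    · subst hx
      rw [atd_ne _ _ h, one_mul, mul_one]
    · rw [atd_ne _ _ hx, one_mul, mul_one]

/-- ψ with p d = q d = 1 normalises the group of the λ_d -/
theorem psi_lam (φ : MulAut (FreeGroup ι)) (p q : δ → FreeGroup ι) (d : δ) (hp : p d = 1)
    (hq : q d = 1) (a : FreeGroup ι) : psi φ p q * lam d a = lam d (φ a) * psi φ p q := by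
  rw [lam, lam, psi_mul, psi_mul, one_mul, mul_one]
  congr 1
  · funext e
    change φ (atd d a e) * p e = p e * atd d (φ a) e
    by_cases he : e = d
    · subst he; rw [atd_same, atd_same, hp, one_mul, mul_one]
    · rw [atd_ne _ _ he, atd_ne _ _ he, map_one, one_mul, mul_one]
  · funext e
    change q e * φ (atd d a⁻¹ e) = atd d (φ a)⁻¹ e * q e
    by_cases he : e = d
    · subst he; rw [atd_same, atd_same, hq, one_mul, mul_one, map_inv]
    · rw [atd_ne _ _ he, atd_ne _ _ he, map_one, one_mul, mul_one]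

/-- λ_d(c) changes p d = 1, q d = 1 into c, c⁻¹ -/
theorem lam_psi (φ : MulAut (FreeGroup ι)) (p q p' q' : δ → FreeGroup ι) (d : δ)
    (hp : p d = 1) (hq : q d = 1) (c : FreeGroup ι) (hp' : p' d = c) (hq' : q' d = c⁻¹)
    (hpe : ∀ e, e ≠ d → p' e = p e) (hqe : ∀ e, e ≠ d → q' e = q e) :
    psi φ p' q' = lam d c * psi φ p q := by
  rw [lam, psi_mul, one_mul]
  congr 1
  · funext e
    change p' e = p e * atd d c e
    by_cases he : e = d
    · subst he; rw [atd_same, hp, one_mul, hp']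
    · rw [atd_ne _ _ he, mul_one, hpe e he]
  · funext e
    change q' e = atd d c⁻¹ e * q e
    by_cases he : e = d
    · subst he; rw [atd_same, hq, mul_one, hq']
    · rw [atd_ne _ _ he, one_mul, hqe e he]

/-! ### effects -/

theorem expo_inl_map [Finite ι] (z : ι) (x : FreeGroup ι) :
    expo (Sum.inl z : ι ⊕ δ) (jn δ x) = expo z x := expo_map (inE ι δ) z x

/-- the exponents of z in the image of the old letters -/
theorem eff_psi_old (z : ι) (φ : MulAut (FreeGroup ι)) (p q : δ → FreeGroup ι) (i : ι) :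
    eff (Sum.inl z : ι ⊕ δ) (psi φ p q) (FreeGroup.of (Sum.inl i)) = eff z φ (FreeGroup.of i) := by
  unfold eff
  have h1 : (FreeGroup.of (Sum.inl i : ι ⊕ δ)) = jn δ (FreeGroup.of i) := by rw [mof]
  rw [h1, psi_jn]
  have h2 : ∀ x : FreeGroup ι, expo (Sum.inl z : ι ⊕ δ) (jn δ x) = expo z x :=
    fun x => expo_map (inE ι δ) z x
  rw [h2, h2]

theorem eff_psi_new (z : ι) (φ : MulAut (FreeGroup ι)) (p q : δ → FreeGroup ι) (d : δ)
    (h : expo z (p d * q d) = 1) :
    eff (Sum.inl z : ι ⊕ δ) (psi φ p q) (FreeGroup.of (Sum.inr d)) = 0 := by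
  unfold eff
  have h2 : ∀ x : FreeGroup ι, expo (Sum.inl z : ι ⊕ δ) (jn δ x) = expo z x :=
    fun x => expo_map (inE ι δ) z x
  have h3 : expo (Sum.inl z : ι ⊕ δ) (psi φ p q (FreeGroup.of (Sum.inr d))) =
      expo (Sum.inl z : ι ⊕ δ) (FreeGroup.of (Sum.inr d)) := by
    rw [psi_t, map_mul, map_mul, h2, h2, mul_right_comm, ← map_mul, h, one_mul]
  rw [h3, sub_self]

theorem chR_psi [Fintype ι] [Fintype δ] {R : Type} [CommRing R] (z : ι) (χ : ι ⊕ δ → Rˣ)
    (φ : Gp z) (p q : δ → FreeGroup ι) (h : ∀ d, expo z (p d * q d) = 1)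
    (Φ : Gp (Sum.inl z : ι ⊕ δ)) (hΦ : (Φ : MulAut (FreeGroup (ι ⊕ δ))) = psi φ p q) :
    chR (Sum.inl z) χ Φ = chR z (fun i => χ (Sum.inl i)) φ := by
  refine congrArg Units.val ?_
  rw [chr_apply, chr_apply, Fintype.prod_sum_type]
  have h2 : ∏ d : δ, χ (Sum.inr d) ^ eff (Sum.inl z : ι ⊕ δ) Φ (FreeGroup.of (Sum.inr d)) = 1 := by
    refine Finset.prod_eq_one fun d _ => ?_
    rw [hΦ, eff_psi_new z _ p q d (h d), zpow_zero]
  rw [h2, mul_one]
  refine Finset.prod_congr rfl fun i _ => ?_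
  rw [hΦ, eff_psi_old]

end aux

section main

variable {ι δ κ : Type} [Fintype ι] [Fintype δ] {R : Type} [CommRing R]

omit [Fintype ι] [Fintype δ] in
theorem iot_mem {z : ι} {E : κ → Set (FreeGroup ι)} (γ : GS z E → FreeGroup ι) (J : Finset δ)
    (φ : GS z E) : iot γ J φ = psi ((φ : Gp z) : MulAut (FreeGroup ι))
      (fun d => open Classical in if d ∈ J then γ φ else 1)
      (fun d => open Classical in if d ∈ J then (γ φ)⁻¹ else 1) := rfl

omit [Fintype ι] [Fintype δ] in
open Classical in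
theorem iot_cond (z : ι) (g : FreeGroup ι) (J : Finset δ) (d : δ) :
    expo z ((if d ∈ J then g else 1) * (if d ∈ J then g⁻¹ else 1)) = 1 := by
  by_cases h : d ∈ J
  · rw [if_pos h, if_pos h, mul_inv_cancel, map_one]
  · rw [if_neg h, if_neg h, mul_one, map_one]

/-- the coefficient map -/
noncomputable def fJ {z : ι} (χ : ι ⊕ δ → Rˣ) {E : κ → Set (FreeGroup ι)}
    (γ : GS z E → FreeGroup ι) (J : Finset δ)
    (iJ : GS z E →* GS (Sum.inl z) (plF δ E))
    (hi : ∀ φ, ((iJ φ).1.1 : MulAut (FreeGroup (ι ⊕ δ))) = iot γ J φ) :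
    chG z (fun i => χ (Sum.inl i)) E ⟶ res iJ (chG (Sum.inl z) χ (plF δ E)) :=
  ofHom ⟨LinearMap.id, fun φ => by
    refine LinearMap.ext fun (r : R) => ?_
    change chR z (fun i => χ (Sum.inl i)) (φ : Gp z) * r = chR (Sum.inl z) χ (iJ φ : Gp _) * r
    rw [chR_psi z χ (φ : Gp z) _ _ (fun d => iot_cond z (γ φ) J d) (iJ φ : Gp _) (hi φ)]⟩

theorem fJ_apply {z : ι} (χ : ι ⊕ δ → Rˣ) {E : κ → Set (FreeGroup ι)}
    (γ : GS z E → FreeGroup ι) (J : Finset δ)
    (iJ : GS z E →* GS (Sum.inl z) (plF δ E))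
    (hi : ∀ φ, ((iJ φ).1.1 : MulAut (FreeGroup (ι ⊕ δ))) = iot γ J φ) (r : R) :
    ((fJ χ γ J iJ hi).hom r : R) = r := rfl


omit [Fintype ι] [Fintype δ] in
theorem exists_gam {z : ι} {E : κ → Set (FreeGroup ι)} {D : Set (FreeGroup ι)} {s : FreeGroup ι}
    (h : ∀ φ : MulAut (FreeGroup ι), (∀ j, ∃ g : FreeGroup ι, φ '' E j = g • E j) →
      ∃ c ∈ A0 E, φ '' D = c • D ∧ (c * s)⁻¹ * φ s ∈ RSt D ∧
        (∀ c' : FreeGroup ι, φ '' D = c' • D → c' = c) ∧
        (∀ a ∈ A0 E, φ a ∈ A0 E) ∧ (∀ a ∈ RSt D, φ a ∈ RSt D)) :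
    ∃ γ : GS z E → FreeGroup ι, IsGam z E D s γ := by
  choose c hc using fun φ : GS z E => h ((φ : Gp z) : MulAut (FreeGroup ι)) φ.2
  refine ⟨c, ⟨fun φ => (hc φ).1, fun φ => (hc φ).2.1, ?_, fun φ => (hc φ).2.2.1,
    fun φ => (hc φ).2.2.2.2.1, fun φ => (hc φ).2.2.2.2.2⟩⟩
  intro φ ψ
  symm
  refine (hc (φ * ψ)).2.2.2.1 _ ?_
  have h1 : (((φ * ψ : GS z E) : Gp z) : MulAut (FreeGroup ι)) '' D =
      ((φ : Gp z) : MulAut (FreeGroup ι)) '' (((ψ : Gp z) : MulAut (FreeGroup ι)) '' D) := by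
    rw [← Set.image_comp]; rfl
  rw [h1, (hc ψ).2.1, mul_smul, ← (hc φ).2.1]
  ext x
  simp only [Set.mem_image, Set.mem_smul_set, smul_eq_mul]
  constructor
  · rintro ⟨_, ⟨u, hu, rfl⟩, rfl⟩
    exact ⟨((φ : Gp z) : MulAut (FreeGroup ι)) u, ⟨u, hu, rfl⟩, by rw [map_mul]⟩
  · rintro ⟨_, ⟨u, hu, rfl⟩, rfl⟩
    exact ⟨c ψ * u, ⟨u, hu, rfl⟩, by rw [map_mul]⟩

/-- the commuting subgroups -/
def AA (z : ι) (E : κ → Set (FreeGroup ι)) (d : δ) : Subgroup (GS (Sum.inl z) (plF δ E)) where
  carrier := {x | ∃ a ∈ A0 E, ((x.1 : Gp _) : MulAut (FreeGroup (ι ⊕ δ))) = lam d a}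
  one_mem' := ⟨1, Subgroup.one_mem _, by rw [lam_one]; rfl⟩
  mul_mem' := fun {x y} ⟨a, ha, hx⟩ ⟨b, hb, hy⟩ => ⟨b * a, Subgroup.mul_mem _ hb ha, by
    rw [← lam_mul, ← hx, ← hy]; rfl⟩
  inv_mem' := fun {x} ⟨a, ha, hx⟩ => ⟨a⁻¹, Subgroup.inv_mem _ ha, by
    rw [← lam_inv, ← hx]; rfl⟩

omit [Fintype ι] [Fintype δ] in
theorem gs_ext {z : ι ⊕ δ} {E : κ → Set (FreeGroup (ι ⊕ δ))} {x y : GS z E}
    (h : ((x : Gp z) : MulAut (FreeGroup (ι ⊕ δ))) = ((y : Gp z) : MulAut (FreeGroup (ι ⊕ δ)))) :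
    x = y := Subtype.ext (Subtype.ext h)

/-- ZST -/
theorem zst (hLEG : LEG) (hGAM : GAM) (hKLL : KLL) (hZER : ZER) (hCRE : CRE) (hIOH : IOH) :
    ZST := by
  intro t R _ _ ι δ _ _ z χ κ _ _ E hE hcard sx hsx f hf
  classical
  by_cases hu : ∃ d : δ, IsUnit ((χ (Sum.inr d) : R) - 1)
  · obtain ⟨d, hd⟩ := hu
    exact hZER t R ι δ z χ κ E hE d hd sx hsx f hf
  push Not at hu
  have hfam : IsFam E := isFam_of_isSys hE
  obtain ⟨D, s, hleg⟩ := hLEG (FreeGroup ι) κ E hfam
  obtain ⟨γ, hγ⟩ := exists_gam (z := z) (hGAM (FreeGroup ι) κ E D s hfam hleg)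
  obtain ⟨hio, hps⟩ := hIOH ι δ κ z E D s γ hγ
  choose iJ hiJ using hio
  -- membership of the λ
  have hlam : ∀ (d : δ) (a : FreeGroup ι), a ∈ A0 E →
      ∃ x : GS (Sum.inl z) (plF δ E), ((x.1 : Gp _) : MulAut (FreeGroup (ι ⊕ δ))) = lam d a := by
    intro d a ha
    obtain ⟨h1, h2⟩ := hps (atd d a) (atd d a⁻¹) (fun e => by
      by_cases he : e = d
      · subst he; rw [atd_same]; exact ha
      · rw [atd_ne _ _ he]; exact Subgroup.one_mem _) (fun e => by
      by_cases he : e = d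
      · subst he; rw [atd_same]; exact Subgroup.inv_mem _ ha
      · rw [atd_ne _ _ he]; exact Subgroup.one_mem _) (fun e y _ => by
      by_cases he : e = d
      · subst he; rw [atd_same, atd_same, mul_inv_cancel, map_one]
      · rw [atd_ne _ _ he, atd_ne _ _ he, mul_one, map_one])
    exact ⟨⟨⟨_, h1⟩, h2⟩, rfl⟩
  -- descending induction
  have key : ∀ n : ℕ, ∀ J : Finset δ, t + 1 ≤ J.card + n →
      groupHomology.map (iJ J) (fJ χ γ J (iJ J) (hiJ J)) t = 0 := by
    intro n
    induction n with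
    | zero =>
      intro J hJ
      exact hKLL t R ι δ z χ κ E hE D s γ hleg hγ J (by omega) (fun d _ => hu d) (iJ J) (hiJ J) _
        (fun r => rfl)
    | succ n ih =>
      intro J hJ
      by_cases hJ' : t + 1 ≤ J.card
      · exact ih J (by omega)
      obtain ⟨K, hKJ, hKc⟩ := Finset.exists_subset_card_eq (s := Finset.univ \ J) (n := t + 1) (by
        rw [Finset.card_sdiff_of_subset (Finset.subset_univ J), Finset.card_univ]
        omega)
      have hKd : ∀ d ∈ K, d ∉ J := fun d hd => (Finset.mem_sdiff.1 (hKJ hd)).2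
      let emb : K ↪ δ := Function.Embedding.subtype _
      have hmem : ∀ (S : Finset K) (d : K), (d : δ) ∈ J ∪ S.map emb ↔ d ∈ S := by
        intro S d
        rw [Finset.mem_union, Finset.mem_map]
        constructor
        · rintro (h | ⟨e, he, hed⟩)
          · exact absurd h (hKd _ d.2)
          · have : e = d := Subtype.ext hed
            rwa [← this]
        · intro h; exact Or.inr ⟨d, h, rfl⟩
      have h := hCRE R (GS z E) (GS (Sum.inl z) (plF δ E)) (chG (Sum.inl z) χ (plF δ E)) K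
        (fun d => AA z E (d : δ)) ?_ (fun S => iJ (J ∪ S.map emb)) ?_ ?_
        (fun d φ => (hlam (d : δ) (γ φ) (hγ.mem φ)).choose) ?_ ?_
        (chG z (fun i => χ (Sum.inl i)) E) (fun S => fJ χ γ _ (iJ (J ∪ S.map emb)) (hiJ _))
        (fun S x => rfl) t (by rw [Fintype.card_coe, hKc]; omega)
      · rw [Finset.sum_eq_single (∅ : Finset K)] at h
        · have e : J ∪ (∅ : Finset K).map emb = J := by simp
          rw [Finset.card_empty, pow_zero, one_smul] at h
          have h' : ∀ J' : Finset δ, J' = J →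
              groupHomology.map (iJ J') (fJ χ γ J' (iJ J') (hiJ J')) t = 0 →
              groupHomology.map (iJ J) (fJ χ γ J (iJ J) (hiJ J)) t = 0 := by
            rintro J' rfl h; exact h
          exact h' _ e h
        · intro S _ hS
          rw [ih, smul_zero]
          have hd : Disjoint J (S.map emb) := by
            rw [Finset.disjoint_left]
            intro x hx hxS
            obtain ⟨e, _, rfl⟩ := Finset.mem_map.1 hxS
            exact hKd _ e.2 hx
          rw [Finset.card_union_of_disjoint hd, Finset.card_map]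
          have : 1 ≤ S.card := Finset.card_pos.2 (Finset.nonempty_of_ne_empty hS)
          omega
        · intro h; exact absurd (Finset.mem_univ _) h
      · rintro a b hab x ⟨u, _, hx⟩ y ⟨v, _, hy⟩
        refine gs_ext ?_
        change x.1.1 * y.1.1 = y.1.1 * x.1.1
        rw [hx, hy]
        exact lam_comm (fun h => hab (Subtype.ext h)) u v
      · rintro d φ x ⟨u, hu', hx⟩
        refine ⟨((φ : Gp z) : MulAut (FreeGroup ι)) u, hγ.stA φ u hu', ?_⟩
        change (iJ _ φ).1.1 * x.1.1 * ((iJ _ φ).1.1)⁻¹ = _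
        rw [hx, hiJ, mul_inv_eq_iff_eq_mul]
        have hdJ : (d : δ) ∉ J ∪ (∅ : Finset K).map emb := by
          rw [hmem]; exact Finset.notMem_empty _
        exact psi_lam _ _ _ (d : δ) (if_neg hdJ) (if_neg hdJ) u
      · rintro d x ⟨u, _, hx⟩ (m : R)
        change chR (Sum.inl z) χ (x : Gp _) * m = m
        have h1 := chR_psi z χ (1 : Gp z) (atd (d : δ) u) (atd (d : δ) u⁻¹) (fun e => by
          by_cases he : e = d
          · subst he; rw [atd_same, atd_same, mul_inv_cancel, map_one]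
          · rw [atd_ne _ _ he, atd_ne _ _ he, mul_one, map_one]) (x : Gp _) hx
        rw [h1, map_one, one_mul]
      · intro d φ
        exact ⟨γ φ, hγ.mem φ, (hlam (d : δ) (γ φ) (hγ.mem φ)).choose_spec⟩
      · intro S d hd φ
        refine gs_ext ?_
        change _ = (hlam (d : δ) (γ φ) (hγ.mem φ)).choose.1.1 * (iJ _ φ).1.1
        rw [(hlam (d : δ) (γ φ) (hγ.mem φ)).choose_spec, hiJ, hiJ]
        have hd1 : (d : δ) ∉ J ∪ S.map emb := by rw [hmem]; exact hd
        have hd2 : (d : δ) ∈ J ∪ (insert d S).map emb := by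
          rw [hmem]; exact Finset.mem_insert_self _ _
        have hd3 : ∀ e : δ, e ≠ d → (e ∈ J ∪ (insert d S).map emb ↔ e ∈ J ∪ S.map emb) := by
          intro e he
          rw [Finset.map_insert, Finset.mem_union, Finset.mem_union, Finset.mem_insert]
          constructor
          · rintro (h | h | h)
            · exact Or.inl h
            · exact absurd h he
            · exact Or.inr h
          · rintro (h | h)
            · exact Or.inl h
            · exact Or.inr (Or.inr h)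
        refine lam_psi _ _ _ _ _ (d : δ) (if_neg hd1) (if_neg hd1) (γ φ) (if_pos hd2) (if_pos hd2)
          ?_ ?_
        · intro e he
          exact if_congr (hd3 e he) rfl rfl
        · intro e he
          exact if_congr (hd3 e he) rfl rfl
  have h0 := key (t + 1) ∅ (by simp)
  have e1 : sx = iJ ∅ := by
    refine MonoidHom.ext fun φ => gs_ext ?_
    rw [hiJ, hsx]
    ext x
    have h2 : (upE (inE ι δ) ((φ : Gp z) : MulAut (FreeGroup ι))).toMonoidHom =
        (iot γ (∅ : Finset δ) φ).toMonoidHom := by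
      refine fx fun b => ?_
      rcases b with i | d
      · have h1 : (FreeGroup.of (Sum.inl i : ι ⊕ δ)) = jn δ (FreeGroup.of i) := by rw [mof]
        change upE (inE ι δ) _ (FreeGroup.of (Sum.inl i : ι ⊕ δ)) = iot γ (∅ : Finset δ) φ _
        rw [h1, iot, psi_jn]
        exact upE_map (inE ι δ) _ _
      · change upE (inE ι δ) _ (FreeGroup.of (Sum.inr d : ι ⊕ δ)) = iot γ (∅ : Finset δ) φ _
        rw [upE_new _ _ _ (fun i hi => by cases hi), iot, psi_t,
          if_neg (Finset.notMem_empty d), if_neg (Finset.notMem_empty d), map_one, one_mul,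
          mul_one]
    exact DFunLike.congr_fun h2 x
  subst e1
  have e2 : f = fJ χ γ ∅ (iJ ∅) (hiJ ∅) := by
    refine Rep.hom_ext (Representation.IntertwiningMap.ext (LinearMap.ext fun r => ?_))
    exact hf r
  rw [e2]
  exact h0

end main

end Pool.Agent.TST.H39
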